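import Pool.Agent.Results.MP_377342_al.Extension
import Pool.Agent.Helper5.Quat.Ext

set_option autoImplicit false

/-!
# MP_377342_al, Q2: extension of invariant `HA`-neutral subspaces with a prescribed c-set

Let `N` be an `A`-invariant `HA`-neutral subspace, `S₀` the set of the eigenvalues with nonzero real
part of `A` on `N` and `S ⊇ S₀` a c-set. Let `E` be the sum of the root subspaces of `A` for the
elements of `S`. Then `E` is neutral, and it is orthogonal to `N` since no `-l`, `l ∈ S`, is an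
eigenvalue of `A` on `N`. So `N + E` is invariant and neutral, and it is contained in an invariant
maximal nonnegative subspace `L` by the first part of the problem. If `m` is an eigenvalue of `A` on
`L` with nonzero real part which is not in `S`, then `-m ∈ S`, the corresponding eigenvector `x` in
`L` is neutral, so it is orthogonal to `L`, in particular to the root subspace for `-m`, and hence to
the whole space; so `A x = 0`, a contradiction.

The definitions of invariant, neutral, nonnegative, nonpositive and maximal subspaces are those of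
`Pool/Agent/Results/MP_377342_al/Extension.lean`.
-/

namespace Pool.Agent.Results.MP_377342_al.ExtensionCSet

open Quaternion MulOpposite Matrix Pool.Agent.R713 Pool.Agent.Helper5.Quat
open Pool.Agent.Results.MP_377342_al.Extension

/-- `l` is an eigenvalue of the restriction of `A` to `M`: `A x = x l` for some `x ≠ 0` in `M`. -/
def EigenvalueOn {n : ℕ} (A : Matrix (Fin n) (Fin n) ℍ[ℝ]) (M : Sub n) (l : ℍ[ℝ]) : Prop :=
  ∃ x ∈ M, x ≠ 0 ∧ A *ᵥ x = op l • x

/-- The set of the eigenvalues of the restriction of `A` to `M` with nonzero real part. -/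
def offAxis {n : ℕ} (A : Matrix (Fin n) (Fin n) ℍ[ℝ]) (M : Sub n) : Set ℍ[ℝ] :=
  {l | EigenvalueOn A M l ∧ l.re ≠ 0}

/-- `S` is a set of eigenvalues of `A` with nonzero real parts, closed under quaternion similarity,
such that `-l ∉ S` for all `l ∈ S`. -/
structure IsPreCSet {n : ℕ} (A : Matrix (Fin n) (Fin n) ℍ[ℝ]) (S : Set ℍ[ℝ]) : Prop where
  eig : ∀ l ∈ S, EigenvalueOn A ⊤ l
  re_ne : ∀ l ∈ S, l.re ≠ 0
  sim : ∀ l ∈ S, ∀ q : ℍ[ℝ], q ≠ 0 → q⁻¹ * l * q ∈ S
  neg : ∀ l ∈ S, -l ∉ S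

/-- `S` is a c-set of `A`: it is inclusion-maximal among the sets with `IsPreCSet`. -/
def IsCSet {n : ℕ} (A : Matrix (Fin n) (Fin n) ℍ[ℝ]) (S : Set ℍ[ℝ]) : Prop :=
  IsPreCSet A S ∧ ∀ S' : Set ℍ[ℝ], IsPreCSet A S' → S ⊆ S' → S' = S

variable {n : ℕ}

theorem preC_iff (A : Matrix (Fin n) (Fin n) ℍ[ℝ]) (S : Set ℍ[ℝ]) :
    IsPreCSet A S ↔ PreC (lin A) S :=
  ⟨fun h => ⟨h.eig, h.re_ne, h.sim, h.neg⟩, fun h => ⟨h.eig, h.re_ne, h.sim, h.neg⟩⟩

theorem main (G A : Matrix (Fin n) (Fin n) ℍ[ℝ]) (hG : Gᴴ = G)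
    (hA : ∀ x y, star (A *ᵥ x) ⬝ᵥ (G *ᵥ y) = -(star x ⬝ᵥ (G *ᵥ (A *ᵥ y))))
    (hker : ∀ x, G *ᵥ x = 0 → A *ᵥ x = 0)
    (N : Sub n) (hN : Invariant A N) (hneu : Neutral G N) (S : Set ℍ[ℝ]) (hS : IsCSet A S)
    (hNS : offAxis A N ⊆ S) :
    ∃ L : Sub n, N ≤ L ∧ Invariant A L ∧ Extension.Maximal (Nonneg G) L ∧ offAxis A L = S := by
  have hn : ∀ M : Sub n, Nonneg G M ↔
      QNonneg (fun x y : Fin n → ℍ[ℝ] => star x ⬝ᵥ (G *ᵥ y)) M := by
    intro M
    constructor
    · intro h x hx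
      obtain ⟨r, hr, he⟩ := h x hx
      simp only [he]
      rw [Quaternion.re_coe]
      exact hr
    · intro h x hx
      exact ⟨_, h x hx, real_of_herm hG x⟩
  have hker' : ∀ x : Fin n → ℍ[ℝ], (∀ y : Fin n → ℍ[ℝ], star x ⬝ᵥ (G *ᵥ y) = 0) →
      lin A x = 0 := by
    intro x hx
    refine hker x ?_
    have h1 : ∀ y : Fin n → ℍ[ℝ], star y ⬝ᵥ (G *ᵥ x) = 0 := by
      intro y
      have h0 : star y ⬝ᵥ (G *ᵥ x) = star (star x ⬝ᵥ (G *ᵥ y)) := (qherm G hG).symm x y
      rw [h0, hx y, star_zero]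
    funext i
    have h2 := h1 (Pi.single i 1)
    rw [← Pi.single_star, star_one, single_one_dotProduct] at h2
    exact h2
  obtain ⟨L, h1, h2, h3, h4, h5⟩ := extend_spec (qherm G hG) (lin A) hA hker' N hN hneu S
    ((preC_iff A S).1 hS.1) (fun S' h1 h2 => hS.2 S' ((preC_iff A S').2 h1) h2)
    (fun m h1 h2 => hNS ⟨h1, h2⟩)
  exact ⟨L, h1, h2, ⟨(hn L).2 h3, fun M hM hM' => h4 M hM ((hn M).1 hM')⟩, h5⟩

/-- Let `H` be invertible with `H^* = -H`, let `A` be `H`-Hamiltonian and `N` an `A`-invariant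
`HA`-neutral subspace such that the set `S₀` of the eigenvalues of `A` on `N` with nonzero real part
contains no pair `l`, `-l`. For every c-set `S ⊇ S₀` there are `A`-invariant subspaces `L ⊇ N` and
`L' ⊇ N` which are maximal `HA`-nonnegative and maximal `HA`-nonpositive, respectively, such that `S`
is the set of the eigenvalues with nonzero real part of `A` on `L` and of `A` on `L'`. -/
theorem result (n : ℕ) (H A : Matrix (Fin n) (Fin n) ℍ[ℝ]) (hHu : IsUnit H) (hH : Hᴴ = -H)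
    (hA : H * A = -(Aᴴ * H)) (N : Sub n) (hN : Invariant A N) (hneu : Neutral (H * A) N)
    (_hS₀ : ∀ l ∈ offAxis A N, -l ∉ offAxis A N)
    (S : Set ℍ[ℝ]) (hS : IsCSet A S) (hNS : offAxis A N ⊆ S) :
    (∃ L : Sub n, N ≤ L ∧ Invariant A L ∧ Extension.Maximal (Nonneg (H * A)) L ∧ offAxis A L = S) ∧
    (∃ L : Sub n, N ≤ L ∧ Invariant A L ∧ Extension.Maximal (Nonpos (H * A)) L ∧ offAxis A L = S) := by
  have hG : (H * A)ᴴ = H * A := by
    rw [Matrix.conjTranspose_mul, hH, mul_neg, ← hA]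
  have hker : ∀ x, (H * A) *ᵥ x = 0 → A *ᵥ x = 0 := by
    intro x hx
    obtain ⟨u, rfl⟩ := hHu
    rw [← Matrix.mulVec_mulVec] at hx
    have h1 : (↑u⁻¹ : Matrix (Fin n) (Fin n) ℍ[ℝ]) *ᵥ (↑u *ᵥ (A *ᵥ x)) = 0 := by
      rw [hx, Matrix.mulVec_zero]
    rw [Matrix.mulVec_mulVec, Units.inv_mul, Matrix.one_mulVec] at h1
    exact h1
  refine ⟨main (H * A) A hG (skew H A hA) hker N hN hneu S hS hNS, ?_⟩
  have hG' : (-(H * A))ᴴ = -(H * A) := by rw [Matrix.conjTranspose_neg, hG]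
  obtain ⟨L, h1, h2, ⟨h3, h4⟩, h5⟩ := main (-(H * A)) A hG' (by
      intro x y
      rw [Matrix.neg_mulVec, Matrix.neg_mulVec, dotProduct_neg, dotProduct_neg, skew H A hA])
    (by
      intro x hx
      rw [Matrix.neg_mulVec, neg_eq_zero] at hx
      exact hker x hx)
    N hN (by
      intro x hx y hy
      rw [Matrix.neg_mulVec, dotProduct_neg, hneu x hx y hy, neg_zero]) S hS hNS
  have hn : ∀ M : Sub n, Nonneg (-(H * A)) M ↔ Nonpos (H * A) M := by
    intro M
    constructor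
    · intro h x hx
      obtain ⟨r, hr, he⟩ := h x hx
      refine ⟨-r, by linarith, ?_⟩
      rw [Matrix.neg_mulVec, dotProduct_neg] at he
      rw [Quaternion.coe_neg, ← he, neg_neg]
    · intro h x hx
      obtain ⟨r, hr, he⟩ := h x hx
      refine ⟨-r, by linarith, ?_⟩
      rw [Matrix.neg_mulVec, dotProduct_neg, he, Quaternion.coe_neg]
  exact ⟨L, h1, h2, ⟨(hn L).1 h3, fun M hM hM' => h4 M hM ((hn M).2 hM')⟩, h5⟩

end Pool.Agent.Results.MP_377342_al.ExtensionCSet
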